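import Pool.Agent.H92P.Side

/-!
# The cut vertex step of the package
-/

set_option autoImplicit false

namespace Pool.Agent.H92P

open List Pool.Agent.TF82 Pool.Agent.TFC Pool.Agent.TFB Pool.Agent.EG31 Pool.Agent.H62P
  Pool.Agent.H36C Pool.Agent.H18C

universe u

set_option linter.unusedSectionVars false
set_option linter.unusedVariables false

variable {V : Type u} [DecidableEq V]

/-- the piece `X + z` with its members -/
structure SZ (G : SimpleGraph V) [DecidableRel G.Adj] (U W X : Finset V) (z : V) (γ m : ℕ)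
    (J : Finset V) : Prop where
  sub : J ⊆ X
  good : ∀ v ∈ J, Good G U W v
  ind : G.IsIndepSet (J : Set V)
  card : J.card = m
  near : ∀ M ⊆ insert z X, (∀ x ∈ M, ∀ y ∈ M, Near G (insert z X) (insert z (W ∩ X)) x y) →
    ∑ v ∈ J, dU G U v + max M.card 1 ≤ X.card + 1
  p1 : ∀ M ⊆ J, M.Nonempty → ∃ v ∈ M, ∀ x ∈ insert z X, x ≠ v →
    Pth G (insert z X) v x (γ + M.card + 1)
  p2 : ∀ M ⊆ J, ∀ M' ⊆ J, M.Nonempty → M'.Nonempty → ¬ (M = M' ∧ M.card = 1) →
    ∃ v ∈ M, ∃ v' ∈ M', v ≠ v' ∧
      Pth G (insert z X) v v' (2 * γ + M.card + M'.card)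
  co : 1 ≤ m → ∃ D ⊆ insert z X, 2 ≤ D.card ∧ ∀ x ∈ D, ∀ x' ∈ D, x ≠ x' →
      Pth G D x x' (m + γ + 1)

theorem pieceP {G : SimpleGraph V} [DecidableRel G.Adj] {n : ℕ} {U W X : Finset V} {z u₀ : V}
    (ih : IHP G n) (hW : W ⊆ U) (hCW : CW G U W) (hconn : Conn1 G U) (hX : Side G U z X)
    (hXn : X.card + 1 < n) (hu : u₀ ∈ U) (hu' : u₀ ∉ insert z X) {β m : ℕ}
    (hβ : Sb G U W X β) (hβ1 : 1 ≤ β + (W \ X).card)
    (hm : MinCov G (insert z X) (insert z (W ∩ X)) m) :
    ∃ J, SZ G U W X z (β + (W \ X).card) m J := by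
  by_cases hne : (X \ W).Nonempty
  · obtain ⟨b', hb'⟩ : ∃ b', b' + 1 = β + (W \ X).card := ⟨β + (W \ X).card - 1, by omega⟩
    have hK : Kb G (insert z X) (insert z (W ∩ X)) b' :=
      kb_ins hX hconn hW hCW hu hu' hne hβ (by omega)
    have hcZ : (insert z X).card = X.card + 1 := Finset.card_insert_of_notMem hX.znC
    have hcS : 1 ≤ (insert z (W ∩ X)).card := Finset.card_pos.2 ⟨z, Finset.mem_insert_self _ _⟩
    obtain ⟨J, hJ⟩ := ih (insert z X) (insert z (W ∩ X)) b' m (by omega) hK hm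
    have hJX := Pkg.subX hJ
    refine ⟨J, hJX, fun v hv => hX.good_of hconn (hJ.good v hv) (hJX hv), hJ.ind, hJ.card,
      Pkg.zmax hX hJ, ?_, ?_, ?_⟩
    · intro M hM hMne
      obtain ⟨v, hv, hp⟩ := hJ.p1 M hM hMne
      exact ⟨v, hv, fun x hx hxv => pth_mono (hp x hx hxv) (Finset.Subset.refl _) (by omega)⟩
    · intro M hM M' hM' hne1 hne2 hno
      obtain ⟨v, hv, v', hv', hvv, hp⟩ := hJ.p2 M hM M' hM' hne1 hne2 hno
      exact ⟨v, hv, v', hv', hvv, pth_mono hp (Finset.Subset.refl _) (by omega)⟩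
    · intro _
      obtain ⟨D, hD, hD2, hp⟩ := hJ.co
      exact ⟨D, hD, hD2, fun x hx x' hx' hxx =>
        pth_mono (hp x hx x' hx' hxx) (Finset.Subset.refl _) (by omega)⟩
  · have hm0 : m = 0 := by
      by_contra hcon
      refine hm.2 0 (by omega) (cov_ins (cov_zero ?_))
      rintro ⟨x, hx⟩
      apply hne
      rw [Finset.mem_sdiff, Finset.mem_inter] at hx
      exact ⟨x, Finset.mem_sdiff.2 ⟨hx.1, fun hw => hx.2 ⟨hw, hx.1⟩⟩⟩
    subst hm0
    refine ⟨∅, by simp, by simp, by simp [SimpleGraph.IsIndepSet], rfl, ?_, ?_, ?_, ?_⟩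
    · intro M hM _
      have h1 := Finset.card_le_card hM
      have h2 : (insert z X).card ≤ X.card + 1 := Finset.card_insert_le _ _
      simp only [Finset.sum_empty]
      omega
    · intro M hM hne
      rw [Finset.subset_empty.1 hM] at hne
      exact absurd hne (by simp)
    · intro M hM M' _ hne
      rw [Finset.subset_empty.1 hM] at hne
      exact absurd hne (by simp)
    · intro h
      exact absurd h (by omega)

/-- an independent set in a piece `X + z` -/
theorem pieceI {G : SimpleGraph V} [DecidableRel G.Adj] {n : ℕ} {U W X : Finset V} {z u₀ : V}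
    (ih : IHP G n) (hW : W ⊆ U) (hCW : CW G U W) (hconn : Conn1 G U) (hX : Side G U z X)
    (hXn : X.card + 1 < n) (hu : u₀ ∈ U) (hu' : u₀ ∉ insert z X) {m : ℕ}
    (hm : MinCov G (insert z X) (insert z (W ∩ X)) m) :
    ∃ J ⊆ X \ W, G.IsIndepSet (J : Set V) ∧ J.card = m := by
  rcases Nat.eq_zero_or_pos m with h0 | h0
  · exact ⟨∅, by simp, by simp [SimpleGraph.IsIndepSet], by simp [h0]⟩
  have hcZ : (insert z X).card = X.card + 1 := Finset.card_insert_of_notMem hX.znC
  have hne : (X \ W).Nonempty := by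
    by_contra hcon
    refine hm.2 0 (by omega) (cov_ins (cov_zero ?_))
    rintro ⟨x, hx⟩
    apply hcon
    rw [Finset.mem_sdiff, Finset.mem_inter] at hx
    exact ⟨x, Finset.mem_sdiff.2 ⟨hx.1, fun hw => hx.2 ⟨hw, hx.1⟩⟩⟩
  obtain ⟨J, hJ⟩ := ih (insert z X) (insert z (W ∩ X)) 0 m (by omega)
    (Kb.zero (Finset.insert_subset_insert _ Finset.inter_subset_right) (hX.conn_ins hconn) (by
      obtain ⟨x, hx⟩ := hne
      rw [Finset.mem_sdiff] at hx
      refine ⟨x, Finset.mem_sdiff.2 ⟨Finset.mem_insert_of_mem hx.1, ?_⟩⟩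
      intro h
      rcases Finset.mem_insert.1 h with h | h
      · exact hX.znC (h ▸ hx.1)
      · exact hx.2 (Finset.mem_inter.1 h).1)
      (cw_of_cwb (hX.cwb hW (cwb_of_cw hCW) hu hu'))) hm
  have hJX := Pkg.subX hJ
  refine ⟨J, fun v hv => ?_, hJ.ind, hJ.card⟩
  exact Finset.mem_sdiff.2 ⟨hJX hv, fun h => (hJ.good v hv).nS
    (Finset.mem_insert_of_mem (Finset.mem_inter.2 ⟨h, hJX hv⟩))⟩

/-- THE CUT VERTEX STEP -/
theorem cut_step {G : SimpleGraph V} [DecidableRel G.Adj] {U W : Finset V} {b f : ℕ} {z : V}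
    (ih : IHP G U.card) (hK : Kb G U W b) (hf : MinCov G U W f) (hz : z ∈ U)
    (hzc : ¬ Conn1 G (U.erase z)) : ∃ I, Pkg G U W b f I := by
  have hW := hK.sub
  have hconn := hK.con
  have hC := hK.cw
  have hf1 := hK.pos hf
  -- two sides
  obtain ⟨x₀, hx₀⟩ : (U.erase z).Nonempty := by
    by_contra h
    rw [Finset.not_nonempty_iff_eq_empty] at h
    apply hzc
    rw [h]
    intro a ha
    simp at ha
  obtain ⟨A, hxA, hA⟩ := exists_part (G := G) hz hx₀
  obtain ⟨B, hB⟩ : ∃ B, B = (U.erase z) \ A := ⟨_, rfl⟩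
  have hAs : Side G U z A := hA.side
  have hBs : Side G U z B := hB ▸ hA.rest
  have hAB : Disjoint A B := by
    rw [hB]
    exact Finset.disjoint_sdiff
  have hzA : z ∉ A := hA.znC
  have hzB : z ∉ B := hBs.znC
  have hall : ∀ x ∈ U, x = z ∨ x ∈ A ∨ x ∈ B := by
    intro x hx
    by_cases h : x = z
    · exact Or.inl h
    · by_cases h' : x ∈ A
      · exact Or.inr (Or.inl h')
      · right; right
        rw [hB]
        exact Finset.mem_sdiff.2 ⟨Finset.mem_erase.2 ⟨h, hx⟩, h'⟩
  have hBne : B.Nonempty := by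
    by_contra hcon
    rw [Finset.not_nonempty_iff_eq_empty] at hcon
    apply hzc
    have h1 : U.erase z = A := by
      apply Finset.Subset.antisymm _ hA.sub
      intro y hy
      rcases hall y (Finset.mem_of_mem_erase hy) with h3 | h3 | h3
      · exact absurd h3 (Finset.mem_erase.1 hy).1
      · exact h3
      · rw [hcon] at h3
        simp at h3
    rw [h1]
    exact hA.conn
  obtain ⟨b₀, hb₀⟩ := hBne
  have hAU := hAs.subH
  have hBU := hBs.subH
  have hno : ∀ a ∈ A, ∀ b ∈ B, ¬ G.Adj a b := by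
    intro a ha b hb hab
    rcases hA.cl a ha b (hBU hb) hab with h1 | h1
    · exact Finset.disjoint_left.1 hAB h1 hb
    · exact hzB (h1 ▸ hb)
  have hcU : U.card = A.card + B.card + 1 := by
    have : U = insert z (A ∪ B) := by
      ext x
      rw [Finset.mem_insert, Finset.mem_union]
      constructor
      · exact hall x
      · rintro (rfl | h | h)
        · exact hz
        · exact hAU h
        · exact hBU h
    rw [this, Finset.card_insert_of_notMem, Finset.card_union_of_disjoint hAB]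
    rw [Finset.mem_union]
    push Not
    exact ⟨hzA, hzB⟩
  have hAp : 1 ≤ A.card := Finset.card_pos.2 ⟨x₀, hxA⟩
  have hBp : 1 ≤ B.card := Finset.card_pos.2 ⟨b₀, hb₀⟩
  have hbA : b₀ ∉ insert z A := by
    intro h
    rcases Finset.mem_insert.1 h with h | h
    · exact hzB (h ▸ hb₀)
    · exact Finset.disjoint_left.1 hAB h hb₀
  have hxB : x₀ ∉ insert z B := by
    intro h
    rcases Finset.mem_insert.1 h with h | h
    · exact hzA (h ▸ hxA)
    · exact Finset.disjoint_left.1 hAB hxA h
  have hx₀U : x₀ ∈ U := hAU hxA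
  have hSU : Sb G U W U b := fun I h1 h2 v h3 h4 => hK.sur I h1 h2 v h3 h4
  have hNc : ∀ N ⊆ U, N.card ≤ (N ∩ A).card + (N ∩ B).card + 1 := by
    intro N hN
    have : N ⊆ insert z ((N ∩ A) ∪ (N ∩ B)) := by
      intro x hx
      rw [Finset.mem_insert, Finset.mem_union, Finset.mem_inter, Finset.mem_inter]
      rcases hall x (hN hx) with h | h | h
      · exact Or.inl h
      · exact Or.inr (Or.inl ⟨hx, h⟩)
      · exact Or.inr (Or.inr ⟨hx, h⟩)
    refine (Finset.card_le_card this).trans ((Finset.card_insert_le _ _).trans ?_)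
    exact Nat.succ_le_succ (Finset.card_union_le _ _)
  -- facts on the optional vertices
  have F1 : min 1 W.card ≤ (W \ A).card + (W \ B).card := by
    rcases W.eq_empty_or_nonempty with h | ⟨w, hw⟩
    · rw [h]
      simp
    · by_cases hwA : w ∈ A
      · have : 1 ≤ (W \ B).card := Finset.card_pos.2 ⟨w, Finset.mem_sdiff.2 ⟨hw,
          Finset.disjoint_left.1 hAB hwA⟩⟩
        omega
      · have : 1 ≤ (W \ A).card := Finset.card_pos.2 ⟨w, Finset.mem_sdiff.2 ⟨hw, hwA⟩⟩
        omega
  have F2 : ∀ m, ((B \ W).Nonempty → 1 ≤ m) → 1 ≤ m + (W \ A).card := by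
    intro m hm
    by_cases h : b₀ ∈ W
    · have : 1 ≤ (W \ A).card := Finset.card_pos.2 ⟨b₀, Finset.mem_sdiff.2 ⟨h, fun h' =>
        Finset.disjoint_left.1 hAB h' hb₀⟩⟩
      omega
    · have := hm ⟨b₀, Finset.mem_sdiff.2 ⟨hb₀, h⟩⟩
      omega
  have F3 : ∀ m, ((A \ W).Nonempty → 1 ≤ m) → 1 ≤ m + (W \ B).card := by
    intro m hm
    by_cases h : x₀ ∈ W
    · have : 1 ≤ (W \ B).card := Finset.card_pos.2 ⟨x₀, Finset.mem_sdiff.2 ⟨h, fun h' =>
        Finset.disjoint_left.1 hAB hxA h'⟩⟩
      omega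
    · have := hm ⟨x₀, Finset.mem_sdiff.2 ⟨hxA, h⟩⟩
      omega
  have hAZU : insert z A ⊆ U := hAs.insH
  have hBZU : insert z B ⊆ U := hBs.insH
  have hCb := cwb_of_cw hC
  have hCA1 : CW G (insert z A) (insert z (W ∩ A)) := cw_of_cwb (hAs.cwb hW hCb (hBU hb₀) hbA)
  have hCB1 : CW G (insert z B) (insert z (W ∩ B)) := cw_of_cwb (hBs.cwb hW hCb hx₀U hxB)
  have hCA0 : CW G A (W ∩ A) := hAs.cw0 hW hC (hBU hb₀) hbA
  obtain ⟨a1, ha1, ha1'⟩ := exists_min_cov
    (Finset.insert_subset_insert _ Finset.inter_subset_right) hCA1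
  obtain ⟨b1, hb1, hb1'⟩ := exists_min_cov
    (Finset.insert_subset_insert _ Finset.inter_subset_right) hCB1
  obtain ⟨a0, ha0, ha0'⟩ := exists_min_cov Finset.inter_subset_right hCA0
  obtain ⟨q, q1, ⟨Q, Q1, Q2, Q3⟩, q3, q4⟩ := sideP ih hW hC hconn hx₀U B.card B le_rfl hBs
    (by omega) hxB
  have hk1 : f ≤ a1 + q := hf.le (glue hW hC hz hAU hBU (by
    rw [Finset.disjoint_insert_left]; exact ⟨hzB, hAB⟩) hall ha1 q1)
  have hk2 : f ≤ b1 + a0 := hf.le (glue hW hC hz hBU hAU (by
    rw [Finset.disjoint_insert_left]; exact ⟨hzA, hAB.symm⟩)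
    (fun x hx => by rcases hall x hx with h | h | h <;> tauto) hb1 ha0)
  by_cases hsave : a1 < a0 ∧ 1 ≤ q
  · -- the saving case
    have hmA : MinCov G A (W ∩ A) a0 := ⟨ha0, ha0'⟩
    have hQB : Q ⊆ B := fun v hv => (Finset.mem_sdiff.1 (Q1 hv)).1
    have hSA : Sb G U W A (b + q) := by
      have := sb_of hSU hAU (fun v hv => Finset.mem_sdiff.2
        ⟨hBU (hQB hv), (Finset.mem_sdiff.1 (Q1 hv)).2⟩)
        (Finset.disjoint_of_subset_right hQB hAB) Q2 (fun a ha e he => hno a ha e (hQB he))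
      rwa [Q3] at this
    obtain ⟨J, hJ, D, hD, hD2, hDp⟩ := compP ih hW hC hconn hA (by omega) (hBU hb₀) hbA hSA
      (by omega) hmA (by omega)
    have hJW : J ⊆ U \ W := fun v hv =>
      Finset.mem_sdiff.2 ⟨(hJ.good v hv).mem, (hJ.good v hv).nS⟩
    have hSB : Sb G U W B (b + a0) := by
      have := sb_of hSU hBU hJW (Finset.disjoint_of_subset_right hJ.sub hAB.symm) hJ.ind
        (fun a ha e he hadj => hno e (hJ.sub he) a ha hadj.symm)
      rwa [hJ.card] at this
    obtain ⟨J', hJ'⟩ := q4 (b + a0) hSB (by omega)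
    have hJJ : Disjoint J J' := Finset.disjoint_of_subset_left hJ.sub
      (Finset.disjoint_of_subset_right hJ'.sub hAB)
    have hgood : ∀ v ∈ J ∪ J', Good G U W v := by
      intro x hx
      rcases Finset.mem_union.1 hx with h | h
      · exact hJ.good x h
      · exact hJ'.good x h
    have hind := indep_union hJ.ind hJ'.ind hJ.sub hJ'.sub hno
    have hcJ : (J ∪ J').card = a0 + q := by
      rw [Finset.card_union_of_disjoint hJJ, hJ.card, hJ'.card]
    obtain ⟨R, hR, hRc⟩ := Finset.exists_subset_card_eq (s := J ∪ J') (n := f) (by omega)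
    obtain ⟨r1, r2, r3⟩ := split_mem hAB hJ.sub hJ'.sub hR
    refine ⟨R, fun v hv => hgood v (hR hv), fun x hx y hy => hind (hR hx) (hR hy), hRc,
      ?_, ?_, ?_, ?_⟩
    · -- sums
      intro N hN hnear
      have e1 := hJ.near N hN hnear
      have e2 := hJ'.near N hN hnear
      have e3 := hNc N hN
      have e4 := Finset.sum_union (f := fun v => dU G U v) hJJ
      obtain ⟨v, hv, hvR⟩ : ∃ v ∈ J ∪ J', v ∉ R := by
        by_contra hcon
        push Not at hcon
        have := Finset.card_le_card hcon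
        omega
      have e5 := hC (J ∪ J') (fun x hx => Finset.mem_sdiff.2 ⟨(hgood x hx).mem,
        (hgood x hx).nS⟩) hind v hv
      have e6 : ∑ x ∈ insert v R, dU G U x ≤ ∑ x ∈ J ∪ J', dU G U x :=
        Finset.sum_le_sum_of_subset (Finset.insert_subset hv hR)
      rw [Finset.sum_insert hvR] at e6
      omega
    · -- P1
      intro M hM hMne
      obtain ⟨s1, s2, s3⟩ := split_mem hAB hJ.sub hJ'.sub (hM.trans hR)
      have c1 := Finset.card_le_card s1
      have c2 := Finset.card_le_card s2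
      rw [hJ.card] at c1
      rw [hJ'.card] at c2
      have c3 := Finset.card_le_card hM
      have c4 := Finset.card_pos.2 hMne
      by_cases hX : 1 ≤ (M ∩ A).card ∧ (M ∩ B).card + 1 ≤ q
      · obtain ⟨v, hv, hp⟩ := hJ.p1 _ s1 (Finset.card_pos.1 hX.1)
        refine ⟨v, (Finset.mem_inter.1 hv).1, fun x hx hxv => ?_⟩
        exact pth_mono (ext_path hconn hAs hBs hAB (Finset.mem_inter.1 hv).2 hp hAZU hBZU x
          (hall x hx) hxv) (Finset.Subset.refl _) (by omega)
      · have hX' : 1 ≤ (M ∩ B).card ∧ (M ∩ A).card + 1 ≤ a0 := by omega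
        obtain ⟨v, hv, hp⟩ := hJ'.p1 _ s2 (Finset.card_pos.1 hX'.1)
        refine ⟨v, (Finset.mem_inter.1 hv).1, fun x hx hxv => ?_⟩
        exact pth_mono (ext_path hconn hBs hAs hAB.symm (Finset.mem_inter.1 hv).2 hp hBZU hAZU x
          (by rcases hall x hx with h | h | h <;> tauto) hxv) (Finset.Subset.refl _) (by omega)
    · -- P2
      intro M hM M' hM' hMne hMne' hcond
      obtain ⟨s1, s2, s3⟩ := split_mem hAB hJ.sub hJ'.sub (hM.trans hR)
      obtain ⟨t1, t2, t3⟩ := split_mem hAB hJ.sub hJ'.sub (hM'.trans hR)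
      have c1 : (M ∩ A).card ≤ (R ∩ A).card :=
        Finset.card_le_card (Finset.inter_subset_inter_right hM)
      have c2 : (M ∩ B).card ≤ (R ∩ B).card :=
        Finset.card_le_card (Finset.inter_subset_inter_right hM)
      have d1 : (M' ∩ A).card ≤ (R ∩ A).card :=
        Finset.card_le_card (Finset.inter_subset_inter_right hM')
      have d2 : (M' ∩ B).card ≤ (R ∩ B).card :=
        Finset.card_le_card (Finset.inter_subset_inter_right hM')
      by_cases hX : (M ∩ A).Nonempty ∧ (M' ∩ B).Nonempty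
      · obtain ⟨v, hv, hp⟩ := hJ.p1 _ s1 hX.1
        obtain ⟨v', hv', hp'⟩ := hJ'.p1 _ t2 hX.2
        have hvX := (Finset.mem_inter.1 hv).2
        have hvY := (Finset.mem_inter.1 hv').2
        have h1 := hp z (Finset.mem_insert_self _ _) (fun he => hzA (he ▸ hvX))
        have h2 := hp' z (Finset.mem_insert_self _ _) (fun he => hzB (he ▸ hvY))
        refine ⟨v, (Finset.mem_inter.1 hv).1, v', (Finset.mem_inter.1 hv').1, ?_, ?_⟩
        · rintro rfl
          exact Finset.disjoint_left.1 hAB hvX hvY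
        · exact pth_mono (pth_glue h1 (pth_rev h2) hAB hzA hzB hAZU hBZU)
            (Finset.Subset.refl _) (by omega)
      by_cases hY : (M ∩ B).Nonempty ∧ (M' ∩ A).Nonempty
      · obtain ⟨v, hv, hp⟩ := hJ'.p1 _ s2 hY.1
        obtain ⟨v', hv', hp'⟩ := hJ.p1 _ t1 hY.2
        have hvY := (Finset.mem_inter.1 hv).2
        have hvX := (Finset.mem_inter.1 hv').2
        have h1 := hp z (Finset.mem_insert_self _ _) (fun he => hzB (he ▸ hvY))
        have h2 := hp' z (Finset.mem_insert_self _ _) (fun he => hzA (he ▸ hvX))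
        refine ⟨v, (Finset.mem_inter.1 hv).1, v', (Finset.mem_inter.1 hv').1, ?_, ?_⟩
        · rintro rfl
          exact Finset.disjoint_left.1 hAB hvX hvY
        · exact pth_mono (pth_glue h1 (pth_rev h2) hAB.symm hzB hzA hBZU hAZU)
            (Finset.Subset.refl _) (by omega)
      rw [← Finset.card_pos] at hMne hMne'
      rw [← Finset.card_pos, ← Finset.card_pos] at hX hY
      by_cases h3 : 0 < (M ∩ A).card
      · have e1 : (M' ∩ B).card = 0 := by
          by_contra hcon
          exact hX ⟨h3, by omega⟩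
        have e2 : (M ∩ B).card = 0 := by
          by_contra hcon
          exact hY ⟨by omega, by omega⟩
        have f1 : M ∩ A = M := Finset.eq_of_subset_of_card_le Finset.inter_subset_left (by omega)
        have f2 : M' ∩ A = M' := Finset.eq_of_subset_of_card_le Finset.inter_subset_left (by omega)
        rw [f1] at s1
        rw [f2] at t1
        obtain ⟨v, hv, v', hv', hvv, hp⟩ := hJ.p2 M s1 M' t1 (Finset.card_pos.1 hMne)
          (Finset.card_pos.1 hMne') hcond
        exact ⟨v, hv, v', hv', hvv, pth_mono hp hAZU (by omega)⟩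
      · have e0 : 0 < (M ∩ B).card := by omega
        have e1 : (M' ∩ A).card = 0 := by
          by_contra hcon
          exact hY ⟨e0, by omega⟩
        have f1 : M ∩ B = M := Finset.eq_of_subset_of_card_le Finset.inter_subset_left (by omega)
        have f2 : M' ∩ B = M' := Finset.eq_of_subset_of_card_le Finset.inter_subset_left (by omega)
        rw [f1] at s2
        rw [f2] at t2
        obtain ⟨v, hv, v', hv', hvv, hp⟩ := hJ'.p2 M s2 M' t2 (Finset.card_pos.1 hMne)
          (Finset.card_pos.1 hMne') hcond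
        exact ⟨v, hv, v', hv', hvv, pth_mono hp hBZU (by omega)⟩
    · -- core
      exact ⟨D, hD.trans hAZU, hD2, fun x hx x' hx' hxx =>
        pth_mono (hDp x hx x' hx' hxx) (Finset.Subset.refl _) (by omega)⟩
  · -- both pieces with `z`
    have hk3 : f ≤ a1 + b1 := by
      by_cases h : a1 < a0
      · have : q = 0 := by
          by_contra hcon
          exact hsave ⟨h, by omega⟩
        omega
      · omega
    have hmA : MinCov G (insert z A) (insert z (W ∩ A)) a1 := ⟨ha1, ha1'⟩
    have hmB : MinCov G (insert z B) (insert z (W ∩ B)) b1 := ⟨hb1, hb1'⟩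
    have gA := F2 b1 (fun h => pos_of_ne' hb1 hzB h)
    have gB := F3 a1 (fun h => pos_of_ne' ha1 hzA h)
    obtain ⟨E, E1, E2, E3⟩ := pieceI ih hW hC hconn hAs (by omega) (hBU hb₀) hbA hmA
    obtain ⟨E', E1', E2', E3'⟩ := pieceI ih hW hC hconn hBs (by omega) hx₀U hxB hmB
    have hEA : E ⊆ A := fun v hv => (Finset.mem_sdiff.1 (E1 hv)).1
    have hEB : E' ⊆ B := fun v hv => (Finset.mem_sdiff.1 (E1' hv)).1
    have hSA : Sb G U W A (b + b1) := by
      have := sb_of hSU hAU (fun v hv => Finset.mem_sdiff.2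
        ⟨hBU (hEB hv), (Finset.mem_sdiff.1 (E1' hv)).2⟩)
        (Finset.disjoint_of_subset_right hEB hAB) E2' (fun a ha e he => hno a ha e (hEB he))
      rwa [E3'] at this
    have hSB : Sb G U W B (b + a1) := by
      have := sb_of hSU hBU (fun v hv => Finset.mem_sdiff.2
        ⟨hAU (hEA hv), (Finset.mem_sdiff.1 (E1 hv)).2⟩)
        (Finset.disjoint_of_subset_right hEA hAB.symm) E2
        (fun a ha e he hadj => hno e (hEA he) a ha hadj.symm)
      rwa [E3] at this
    obtain ⟨J, hJ⟩ := pieceP ih hW hC hconn hAs (by omega) (hBU hb₀) hbA hSA (by omega) hmA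
    obtain ⟨J', hJ'⟩ := pieceP ih hW hC hconn hBs (by omega) hx₀U hxB hSB (by omega) hmB
    have hJJ : Disjoint J J' := Finset.disjoint_of_subset_left hJ.sub
      (Finset.disjoint_of_subset_right hJ'.sub hAB)
    have hgood : ∀ v ∈ J ∪ J', Good G U W v := by
      intro x hx
      rcases Finset.mem_union.1 hx with h | h
      · exact hJ.good x h
      · exact hJ'.good x h
    have hind := indep_union hJ.ind hJ'.ind hJ.sub hJ'.sub hno
    have hcJ : (J ∪ J').card = a1 + b1 := by
      rw [Finset.card_union_of_disjoint hJJ, hJ.card, hJ'.card]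
    obtain ⟨R, hR, hRc⟩ := Finset.exists_subset_card_eq (s := J ∪ J') (n := f) (by omega)
    refine ⟨R, fun v hv => hgood v (hR hv), fun x hx y hy => hind (hR hx) (hR hy), hRc,
      ?_, ?_, ?_, ?_⟩
    · -- sums
      intro N hN hnear
      have e0 : ∑ v ∈ R, dU G U v ≤ ∑ v ∈ J, dU G U v + ∑ v ∈ J', dU G U v := by
        rw [← Finset.sum_union hJJ]
        exact Finset.sum_le_sum_of_subset hR
      have ei := hJ.near ∅ (by simp) (by simp)
      have ej := hJ'.near ∅ (by simp) (by simp)
      simp only [Finset.card_empty] at ei ej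
      by_cases hNA : N ⊆ insert z A
      · have := hJ.near N hNA (fun x hx y hy => near_in_side hAs hconn (hNA hx) (hNA hy)
          (hnear x hx y hy))
        omega
      by_cases hNB : N ⊆ insert z B
      · have := hJ'.near N hNB (fun x hx y hy => near_in_side hBs hconn (hNB hx) (hNB hy)
          (hnear x hx y hy))
        omega
      have e1 := pieceN hconn hAs hJ.near hN hnear (Finset.not_subset.1 hNA)
      have e2 := pieceN hconn hBs hJ'.near hN hnear (Finset.not_subset.1 hNB)
      have e3 := hNc N hN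
      omega
    · -- P1
      intro M hM hMne
      obtain ⟨s1, s2, s3⟩ := split_mem hAB hJ.sub hJ'.sub (hM.trans hR)
      have c1 := Finset.card_le_card s1
      have c2 := Finset.card_le_card s2
      rw [hJ.card] at c1
      rw [hJ'.card] at c2
      have c4 := Finset.card_pos.2 hMne
      by_cases hX : 1 ≤ (M ∩ A).card ∧ min 1 W.card + (M ∩ B).card ≤ (W \ A).card + b1
      · obtain ⟨v, hv, hp⟩ := hJ.p1 _ s1 (Finset.card_pos.1 hX.1)
        refine ⟨v, (Finset.mem_inter.1 hv).1, fun x hx hxv => ?_⟩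
        exact pth_mono (ext_path hconn hAs hBs hAB (Finset.mem_inter.1 hv).2 hp hAZU hBZU x
          (hall x hx) hxv) (Finset.Subset.refl _) (by omega)
      · have hX' : 1 ≤ (M ∩ B).card ∧ min 1 W.card + (M ∩ A).card ≤ (W \ B).card + a1 := by
          omega
        obtain ⟨v, hv, hp⟩ := hJ'.p1 _ s2 (Finset.card_pos.1 hX'.1)
        refine ⟨v, (Finset.mem_inter.1 hv).1, fun x hx hxv => ?_⟩
        exact pth_mono (ext_path hconn hBs hAs hAB.symm (Finset.mem_inter.1 hv).2 hp hBZU hAZU x
          (by rcases hall x hx with h | h | h <;> tauto) hxv) (Finset.Subset.refl _) (by omega)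
    · -- P2
      intro M hM M' hM' hMne hMne' hcond
      obtain ⟨s1, s2, s3⟩ := split_mem hAB hJ.sub hJ'.sub (hM.trans hR)
      obtain ⟨t1, t2, t3⟩ := split_mem hAB hJ.sub hJ'.sub (hM'.trans hR)
      have c1 := Finset.card_le_card s1
      have c2 := Finset.card_le_card s2
      have d1 := Finset.card_le_card t1
      have d2 := Finset.card_le_card t2
      rw [hJ.card] at c1 d1
      rw [hJ'.card] at c2 d2
      by_cases hX : (M ∩ A).Nonempty ∧ (M' ∩ B).Nonempty
      · obtain ⟨v, hv, hp⟩ := hJ.p1 _ s1 hX.1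
        obtain ⟨v', hv', hp'⟩ := hJ'.p1 _ t2 hX.2
        have hvX := (Finset.mem_inter.1 hv).2
        have hvY := (Finset.mem_inter.1 hv').2
        have h1 := hp z (Finset.mem_insert_self _ _) (fun he => hzA (he ▸ hvX))
        have h2 := hp' z (Finset.mem_insert_self _ _) (fun he => hzB (he ▸ hvY))
        refine ⟨v, (Finset.mem_inter.1 hv).1, v', (Finset.mem_inter.1 hv').1, ?_, ?_⟩
        · rintro rfl
          exact Finset.disjoint_left.1 hAB hvX hvY
        · exact pth_mono (pth_glue h1 (pth_rev h2) hAB hzA hzB hAZU hBZU)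
            (Finset.Subset.refl _) (by omega)
      by_cases hY : (M ∩ B).Nonempty ∧ (M' ∩ A).Nonempty
      · obtain ⟨v, hv, hp⟩ := hJ'.p1 _ s2 hY.1
        obtain ⟨v', hv', hp'⟩ := hJ.p1 _ t1 hY.2
        have hvY := (Finset.mem_inter.1 hv).2
        have hvX := (Finset.mem_inter.1 hv').2
        have h1 := hp z (Finset.mem_insert_self _ _) (fun he => hzB (he ▸ hvY))
        have h2 := hp' z (Finset.mem_insert_self _ _) (fun he => hzA (he ▸ hvX))
        refine ⟨v, (Finset.mem_inter.1 hv).1, v', (Finset.mem_inter.1 hv').1, ?_, ?_⟩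
        · rintro rfl
          exact Finset.disjoint_left.1 hAB hvX hvY
        · exact pth_mono (pth_glue h1 (pth_rev h2) hAB.symm hzB hzA hBZU hAZU)
            (Finset.Subset.refl _) (by omega)
      rw [← Finset.card_pos] at hMne hMne'
      rw [← Finset.card_pos, ← Finset.card_pos] at hX hY
      by_cases h3 : 0 < (M ∩ A).card
      · have e1 : (M' ∩ B).card = 0 := by
          by_contra hcon
          exact hX ⟨h3, by omega⟩
        have e2 : (M ∩ B).card = 0 := by
          by_contra hcon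
          exact hY ⟨by omega, by omega⟩
        have f1 : M ∩ A = M := Finset.eq_of_subset_of_card_le Finset.inter_subset_left (by omega)
        have f2 : M' ∩ A = M' := Finset.eq_of_subset_of_card_le Finset.inter_subset_left (by omega)
        rw [f1] at s1
        rw [f2] at t1
        obtain ⟨v, hv, v', hv', hvv, hp⟩ := hJ.p2 M s1 M' t1 (Finset.card_pos.1 hMne)
          (Finset.card_pos.1 hMne') hcond
        exact ⟨v, hv, v', hv', hvv, pth_mono hp hAZU (by omega)⟩
      · have e0 : 0 < (M ∩ B).card := by omega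
        have e1 : (M' ∩ A).card = 0 := by
          by_contra hcon
          exact hY ⟨e0, by omega⟩
        have f1 : M ∩ B = M := Finset.eq_of_subset_of_card_le Finset.inter_subset_left (by omega)
        have f2 : M' ∩ B = M' := Finset.eq_of_subset_of_card_le Finset.inter_subset_left (by omega)
        rw [f1] at s2
        rw [f2] at t2
        obtain ⟨v, hv, v', hv', hvv, hp⟩ := hJ'.p2 M s2 M' t2 (Finset.card_pos.1 hMne)
          (Finset.card_pos.1 hMne') hcond
        exact ⟨v, hv, v', hv', hvv, pth_mono hp hBZU (by omega)⟩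
    · -- core
      by_cases hX : 1 ≤ a1 ∧ min 1 W.card ≤ (W \ A).card
      · obtain ⟨D, hD, hD2, hDp⟩ := hJ.co hX.1
        exact ⟨D, hD.trans hAZU, hD2, fun x hx x' hx' hxx =>
          pth_mono (hDp x hx x' hx' hxx) (Finset.Subset.refl _) (by omega)⟩
      · have hX' : 1 ≤ b1 ∧ min 1 W.card ≤ (W \ B).card := by omega
        obtain ⟨D, hD, hD2, hDp⟩ := hJ'.co hX'.1
        exact ⟨D, hD.trans hBZU, hD2, fun x hx x' hx' hxx =>
          pth_mono (hDp x hx x' hx' hxx) (Finset.Subset.refl _) (by omega)⟩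

theorem cutStepP : CutStepP.{u} := by
  intro V _ G _ H S b f z hK hf hz hzc _ ih
  exact cut_step ih hK hf hz hzc

theorem sideStepP : SideStepP.{u} := by
  intro V _ G _ H S b f z C hK hf hz hzc _ _ ih
  exact cut_step ih hK hf hz hzc

end Pool.Agent.H92P
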