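import Pool.Agent.H62P.Pkg
import Pool.Agent.H37F.Fan

/-!
# Paths glued at a cut vertex, surplus of the sides
-/

set_option autoImplicit false

namespace Pool.Agent.H92P

open List Pool.Agent.TF82 Pool.Agent.TFC Pool.Agent.TFB Pool.Agent.EG31 Pool.Agent.H62P
  Pool.Agent.H36C Pool.Agent.H18C

universe u

set_option linter.unusedSectionVars false
set_option linter.unusedVariables false

variable {V : Type u} [DecidableEq V]

theorem pth_mono {G : SimpleGraph V} {H H' : Finset V} {a b : V} {n n' : ℕ}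
    (h : Pth G H a b n) (hH : H ⊆ H') (hn : n' ≤ n) : Pth G H' a b n' := by
  obtain ⟨Q, h1, h2, h3, h4⟩ := h
  exact ⟨Q, h1, h2, fun w hw => hH (h3 w hw), by omega⟩

theorem pth_rev {G : SimpleGraph V} {H : Finset V} {a b : V} {n : ℕ}
    (h : Pth G H a b n) : Pth G H b a n := by
  obtain ⟨Q, h1, h2, h3, h4⟩ := h
  exact ⟨Q.reverse, h1.rev, List.nodup_reverse.2 h2, fun w hw => h3 w (List.mem_reverse.1 hw),
    by rw [List.length_reverse]; exact h4⟩

theorem pth_snoc {G : SimpleGraph V} {C : Finset V} {v y z : V} {n : ℕ}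
    (h : Pth G C v y n) (hz : z ∉ C) (hyz : G.Adj y z) : Pth G (insert z C) v z (n + 1) := by
  obtain ⟨Q, h1, h2, h3, h4⟩ := h
  refine ⟨Q ++ [z], h1.append (Pool.Agent.H37F.seg_single G z) hyz, ?_, ?_, ?_⟩
  · rw [List.nodup_append]
    refine ⟨h2, by simp, ?_⟩
    intro a ha b hb
    rw [List.mem_singleton] at hb
    rintro rfl
    exact hz (hb ▸ h3 a ha)
  · intro w hw
    rcases List.mem_append.1 hw with hw | hw
    · exact Finset.mem_insert_of_mem (h3 w hw)
    · rw [List.mem_singleton] at hw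
      rw [hw]
      exact Finset.mem_insert_self _ _
  · rw [List.length_append, List.length_singleton]
    omega

theorem pth_glue {G : SimpleGraph V} {U A B : Finset V} {v z x : V} {n m : ℕ}
    (h1 : Pth G (insert z A) v z n) (h2 : Pth G (insert z B) z x m) (hAB : Disjoint A B)
    (hzA : z ∉ A) (hzB : z ∉ B) (hA : insert z A ⊆ U) (hB : insert z B ⊆ U) :
    Pth G U v x (n + m - 1) := by
  obtain ⟨Q, q1, q2, q3, q4⟩ := h1
  obtain ⟨R, r1, r2, r3, r4⟩ := h2
  rcases R with _ | ⟨r, R⟩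
  · have := r1.hd
    simp at this
  have hr : r = z := by
    have := r1.hd
    simpa using this
  subst hr
  refine ⟨Q ++ R, Pool.Agent.H37F.seg_join q1 r1, ?_, ?_, ?_⟩
  · rw [List.nodup_append]
    refine ⟨q2, (List.nodup_cons.1 r2).2, ?_⟩
    intro a ha b hb
    rintro rfl
    have hb1 : a ≠ r := fun he => (List.nodup_cons.1 r2).1 (he ▸ hb)
    rcases Finset.mem_insert.1 (q3 a ha) with h | h
    · exact hb1 h
    · rcases Finset.mem_insert.1 (r3 a (List.mem_cons_of_mem _ hb)) with h' | h'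
      · exact hb1 h'
      · exact Finset.disjoint_left.1 hAB h h'
  · intro w hw
    rcases List.mem_append.1 hw with hw | hw
    · exact hA (q3 w hw)
    · exact hB (r3 w (List.mem_cons_of_mem _ hw))
  · rw [List.length_append]
    rw [List.length_cons] at r4
    omega

/-- some path with at least two vertices -/
theorem pth_two {G : SimpleGraph V} {H : Finset V} (hH : Conn1 G H) {a b : V} (ha : a ∈ H)
    (hb : b ∈ H) (hne : a ≠ b) : Pth G H a b 2 := by
  obtain ⟨Q, h1, h2, h3⟩ := seg_of_reach (hH a ha b hb) ha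
  refine ⟨Q, h1, h2, h3, ?_⟩
  rcases Q with _ | ⟨p, Q⟩
  · have := h1.hd
    simp at this
  rcases Q with _ | ⟨q, Q⟩
  · have e1 := h1.hd
    have e2 := h1.lt
    simp at e1 e2
    exact absurd (e1.symm.trans e2) hne
  · simp

/-- the condition with `β` for the vertices of `X` -/
def Sb (G : SimpleGraph V) [DecidableRel G.Adj] (U W X : Finset V) (β : ℕ) : Prop :=
  ∀ I : Finset V, I ⊆ X \ W → G.IsIndepSet (I : Set V) → ∀ v ∈ I, Good G U W v →
    I.card + W.card + β + 1 ≤ dU G U v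

theorem card_split (W X : Finset V) : (W ∩ X).card + (W \ X).card = W.card := by
  rw [Finset.card_inter_add_card_sdiff]

/-- the class for `X + z` -/
theorem kb_ins {G : SimpleGraph V} [DecidableRel G.Adj] {U W X : Finset V} {z u₀ : V}
    (hX : Side G U z X) (hconn : Conn1 G U) (hW : W ⊆ U) (hCW : CW G U W) (hu : u₀ ∈ U)
    (hu' : u₀ ∉ insert z X) (hne : (X \ W).Nonempty)
    {β b' : ℕ} (hβ : Sb G U W X β)
    (hb : b' + 1 ≤ β + (W \ X).card) : Kb G (insert z X) (insert z (W ∩ X)) b' := by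
  refine ⟨Finset.insert_subset_insert _ Finset.inter_subset_right, hX.conn_ins hconn, ?_,
    cw_of_cwb (hX.cwb hW (cwb_of_cw hCW) hu hu'), ?_⟩
  · obtain ⟨x, hx⟩ := hne
    rw [Finset.mem_sdiff] at hx
    refine ⟨x, Finset.mem_sdiff.2 ⟨Finset.mem_insert_of_mem hx.1, ?_⟩⟩
    intro h
    rcases Finset.mem_insert.1 h with h | h
    · exact hX.znC (h ▸ hx.1)
    · exact hx.2 (Finset.mem_inter.1 h).1
  intro I hI hind v hv hg
  have hIX : ∀ y ∈ I, y ∈ X ∧ y ∉ W := by
    intro y hy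
    have := Finset.mem_sdiff.1 (hI hy)
    have hyz : y ≠ z := fun he => this.2 (he ▸ Finset.mem_insert_self _ _)
    have hyX : y ∈ X := by
      rcases Finset.mem_insert.1 this.1 with h | h
      · exact absurd h hyz
      · exact h
    exact ⟨hyX, fun hyW => this.2 (Finset.mem_insert_of_mem (Finset.mem_inter.2 ⟨hyW, hyX⟩))⟩
  have hg' := hX.good_of hconn hg (hIX v hv).1
  have h1 := hβ I (fun y hy => Finset.mem_sdiff.2 (hIX y hy)) hind v hv hg'
  rw [hX.dU_eq (hIX v hv).1]
  have h2 : (insert z (W ∩ X)).card ≤ (W ∩ X).card + 1 := Finset.card_insert_le _ _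
  have h3 := card_split W X
  omega

/-- the class for a helped component `C` -/
theorem kb_comp {G : SimpleGraph V} [DecidableRel G.Adj] {U W C : Finset V} {z u₀ : V}
    (hC : Part G U z C) (hconn : Conn1 G U) (hW : W ⊆ U) (hCW : CW G U W) (hu : u₀ ∈ U)
    (hu' : u₀ ∉ insert z C) (hne : (C \ W).Nonempty)
    (h2 : ∀ v, ∃ y ∈ C, y ≠ v ∧ G.Adj z y)
    {β b' : ℕ} (hβ : Sb G U W C β)
    (hb : b' + 1 ≤ β + (W \ C).card) : Kb G C (W ∩ C) b' := by
  refine ⟨Finset.inter_subset_right, hC.conn, ?_, hC.side.cw0 hW hCW hu hu', ?_⟩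
  · obtain ⟨x, hx⟩ := hne
    rw [Finset.mem_sdiff] at hx
    exact ⟨x, Finset.mem_sdiff.2 ⟨hx.1, fun h => hx.2 (Finset.mem_inter.1 h).1⟩⟩
  intro I hI hind v hv hg
  have hIX : ∀ y ∈ I, y ∈ C ∧ y ∉ W := by
    intro y hy
    have := Finset.mem_sdiff.1 (hI hy)
    exact ⟨this.1, fun hyW => this.2 (Finset.mem_inter.2 ⟨hyW, this.1⟩)⟩
  have hg' := good_erase hC hconn h2 hg
  have h1 := hβ I (fun y hy => Finset.mem_sdiff.2 (hIX y hy)) hind v hv hg'
  have h4 := hC.side.dU_le_one (hIX v hv).1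
  have h3 := card_split W C
  omega

/-- surplus of a side from an independent set outside -/
theorem sb_of {G : SimpleGraph V} [DecidableRel G.Adj] {U W X Z J : Finset V} {β : ℕ}
    (hβ : Sb G U W Z β) (hXZ : X ⊆ Z) (hJZ : J ⊆ Z \ W) (hJX : Disjoint X J)
    (hind : G.IsIndepSet (J : Set V)) (hno : ∀ a ∈ X, ∀ c ∈ J, ¬ G.Adj a c) :
    Sb G U W X (β + J.card) := by
  intro I hI hind' v hv hvc
  have hIX : I ⊆ X := fun y hy => (Finset.mem_sdiff.1 (hI hy)).1
  have h1 := hβ (I ∪ J) (by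
    intro y hy
    rcases Finset.mem_union.1 hy with h | h
    · have := Finset.mem_sdiff.1 (hI h)
      exact Finset.mem_sdiff.2 ⟨hXZ this.1, this.2⟩
    · exact hJZ h) (indep_union hind' hind hIX (Finset.Subset.refl J) hno) v
      (Finset.mem_union_left _ hv) hvc
  rw [Finset.card_union_of_disjoint (Finset.disjoint_of_subset_left hIX hJX)] at h1
  omega

/-- a side of a cut vertex with its members -/
structure SR (G : SimpleGraph V) [DecidableRel G.Adj] (U W B : Finset V) (z : V) (β m : ℕ)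
    (J : Finset V) : Prop where
  sub : J ⊆ B
  good : ∀ v ∈ J, Good G U W v
  ind : G.IsIndepSet (J : Set V)
  card : J.card = m
  near : ∀ N ⊆ U, (∀ x ∈ N, ∀ y ∈ N, Near G U W x y) →
    ∑ v ∈ J, dU G U v + (N ∩ B).card ≤ B.card + m
  p1 : ∀ M ⊆ J, M.Nonempty → ∃ v ∈ M, ∀ x ∈ insert z B, x ≠ v →
    Pth G (insert z B) v x (β + M.card + min 1 W.card)
  p2 : ∀ M ⊆ J, ∀ M' ⊆ J, M.Nonempty → M'.Nonempty → ¬ (M = M' ∧ M.card = 1) →
    ∃ v ∈ M, ∃ v' ∈ M', v ≠ v' ∧
      Pth G (insert z B) v v' (2 * β + M.card + M'.card + 2 * min 1 W.card - 2)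

theorem SR.empty {G : SimpleGraph V} [DecidableRel G.Adj] {U W B : Finset V} {z : V} {β : ℕ} :
    SR G U W B z β 0 ∅ := by
  refine ⟨by simp, by simp, by simp [SimpleGraph.IsIndepSet], rfl, ?_, ?_, ?_⟩
  · intro N _ _
    have := Finset.card_le_card (Finset.inter_subset_right (s₁ := N) (s₂ := B))
    simpa using this
  · intro M hM hne
    rw [Finset.subset_empty.1 hM] at hne
    exact absurd hne (by simp)
  · intro M hM M' _ hne
    rw [Finset.subset_empty.1 hM] at hne
    exact absurd hne (by simp)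

end Pool.Agent.H92P
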