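import Pool.Agent.H92P.Glue

/-!
# The members of a side of a cut vertex
-/

set_option autoImplicit false

namespace Pool.Agent.H92P

open List Pool.Agent.TF82 Pool.Agent.TFC Pool.Agent.TFB Pool.Agent.EG31 Pool.Agent.H62P
  Pool.Agent.H36C Pool.Agent.H18C

universe u

set_option linter.unusedSectionVars false
set_option linter.unusedVariables false

variable {V : Type u} [DecidableEq V]

theorem cov_zero {G : SimpleGraph V} {U W : Finset V} (h : ¬ (U \ W).Nonempty) :
    CovW G U W 0 :=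
  ⟨[], by simp, ⟨by simp, by simp⟩, by simp, fun x hx => absurd ⟨x, hx⟩ h⟩

theorem cov_ins {G : SimpleGraph V} {C S : Finset V} {z : V} {m : ℕ} (h : CovW G C S m) :
    CovW G (insert z C) (insert z S) m := by
  obtain ⟨L, h1, h2, h3, h4⟩ := h
  refine ⟨L, h1, h2, fun x hx => Finset.mem_insert_of_mem (h3 x hx), ?_⟩
  intro x hx
  rw [Finset.mem_sdiff] at hx
  apply h4
  rw [Finset.mem_sdiff]
  refine ⟨?_, fun h => hx.2 (Finset.mem_insert_of_mem h)⟩
  rcases Finset.mem_insert.1 hx.1 with h | h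
  · exact absurd (h ▸ Finset.mem_insert_self _ _) hx.2
  · exact h

theorem ne_of_pos {G : SimpleGraph V} {C W : Finset V} {m : ℕ} (hm : MinCov G C (W ∩ C) m)
    (h : 1 ≤ m) : (C \ W).Nonempty := by
  by_contra hcon
  refine hm.2 0 h (cov_zero ?_)
  intro h2
  apply hcon
  obtain ⟨x, hx⟩ := h2
  rw [Finset.mem_sdiff, Finset.mem_inter] at hx
  exact ⟨x, Finset.mem_sdiff.2 ⟨hx.1, fun hw => hx.2 ⟨hw, hx.1⟩⟩⟩

theorem pos_of_ne {G : SimpleGraph V} {C W : Finset V} {m : ℕ} (hm : CovW G C (W ∩ C) m)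
    (h : (C \ W).Nonempty) : 1 ≤ m := by
  by_contra hcon
  have : m = 0 := by omega
  subst this
  refine cov_pos ?_ hm
  obtain ⟨x, hx⟩ := h
  rw [Finset.mem_sdiff] at hx
  exact ⟨x, Finset.mem_sdiff.2 ⟨hx.1, fun hw => hx.2 (Finset.mem_inter.1 hw).1⟩⟩

theorem pos_of_ne' {G : SimpleGraph V} {C W : Finset V} {z : V} {m : ℕ}
    (hm : CovW G (insert z C) (insert z (W ∩ C)) m) (hz : z ∉ C)
    (h : (C \ W).Nonempty) : 1 ≤ m := by
  by_contra hcon
  have : m = 0 := by omega
  subst this
  refine cov_pos ?_ hm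
  obtain ⟨x, hx⟩ := h
  rw [Finset.mem_sdiff] at hx
  refine ⟨x, Finset.mem_sdiff.2 ⟨Finset.mem_insert_of_mem hx.1, fun hw => ?_⟩⟩
  rcases Finset.mem_insert.1 hw with h | h
  · exact hz (h ▸ hx.1)
  · exact hx.2 (Finset.mem_inter.1 h).1

theorem min_split (W X : Finset V) : min 1 W.card ≤ (W \ X).card + min 1 (W ∩ X).card := by
  have := card_split W X
  omega

/-- members of `X + z` -/
theorem Pkg.subX {G : SimpleGraph V} [DecidableRel G.Adj] {W X J : Finset V} {z : V} {b f : ℕ}
    (hJ : Pkg G (insert z X) (insert z (W ∩ X)) b f J) : J ⊆ X := by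
  intro v hv
  have hg := hJ.good v hv
  rcases Finset.mem_insert.1 hg.mem with h | h
  · exact absurd (h ▸ Finset.mem_insert_self _ _) hg.nS
  · exact h

/-- the sums of the members of `X + z` -/
theorem Pkg.zmax {G : SimpleGraph V} [DecidableRel G.Adj] {U W X J : Finset V} {z : V}
    {b f : ℕ} (hX : Side G U z X) (hJ : Pkg G (insert z X) (insert z (W ∩ X)) b f J) :
    ∀ M ⊆ insert z X, (∀ x ∈ M, ∀ y ∈ M, Near G (insert z X) (insert z (W ∩ X)) x y) →
      ∑ v ∈ J, dU G U v + max M.card 1 ≤ X.card + 1 := by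
  have hcX : (insert z X).card = X.card + 1 := Finset.card_insert_of_notMem hX.znC
  have hJX := Pkg.subX hJ
  have hsum : ∑ v ∈ J, dU G U v = ∑ v ∈ J, dU G (insert z X) v :=
    Finset.sum_congr rfl (fun v hv => (hX.dU_eq (hJX hv)).symm)
  intro M hM hMn
  have e1 := hJ.near M hM hMn
  have e2 := hJ.sum (Finset.mem_insert_self z X)
  rw [hsum]
  omega

/-- one component of `U - z` -/
theorem compP {G : SimpleGraph V} [DecidableRel G.Adj] {n : ℕ} {U W C : Finset V} {z u₀ : V}
    (ih : IHP G n) (hW : W ⊆ U) (hCW : CW G U W) (hconn : Conn1 G U) (hC : Part G U z C)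
    (hCn : C.card + 1 < n) (hu : u₀ ∈ U) (hu' : u₀ ∉ insert z C) {β m : ℕ}
    (hβ : Sb G U W C β) (hβ1 : 1 ≤ β + (W \ C).card) (hm : MinCov G C (W ∩ C) m)
    (hm1 : 1 ≤ m) :
    ∃ J, SR G U W C z β m J ∧ ∃ D ⊆ insert z C, 2 ≤ D.card ∧ ∀ x ∈ D, ∀ x' ∈ D, x ≠ x' →
      Pth G D x x' (m + β + min 1 W.card) := by
  have hCs : Side G U z C := hC.side
  have hne := ne_of_pos hm hm1
  have hmin := min_split W C
  obtain ⟨b', hb'⟩ : ∃ b', b' + 1 = β + (W \ C).card := ⟨β + (W \ C).card - 1, by omega⟩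
  have hKZ : Kb G (insert z C) (insert z (W ∩ C)) b' :=
    kb_ins hCs hconn hW hCW hu hu' hne hβ (by omega)
  by_cases hh : ∃ l, l < m ∧ CovW G (insert z C) (insert z (W ∩ C)) l
  · obtain ⟨l, hl, hcov⟩ := hh
    have h2 := two_nbrs hC.znC hcov (hm.2 l hl)
    have hK : Kb G C (W ∩ C) b' := kb_comp hC hconn hW hCW hu hu' hne h2 hβ (by omega)
    obtain ⟨J, hJ⟩ := ih C (W ∩ C) b' m (by omega) hK hm
    have hJC : J ⊆ C := fun v hv => (hJ.good v hv).mem
    have hsum : ∑ v ∈ J, dU G U v ≤ ∑ v ∈ J, dU G C v + m := by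
      calc ∑ v ∈ J, dU G U v ≤ ∑ v ∈ J, (dU G C v + 1) :=
            Finset.sum_le_sum (fun v hv => hCs.dU_le_one (hJC hv))
        _ = _ := by rw [Finset.sum_add_distrib, Finset.sum_const, hJ.card]; simp
    refine ⟨J, ⟨hJC, fun v hv => good_erase hC hconn h2 (hJ.good v hv), hJ.ind, hJ.card,
      ?_, ?_, ?_⟩, ?_⟩
    · intro N hN hnear
      by_cases hne : (N ∩ C).Nonempty
      · obtain ⟨x₀, hx₀⟩ := hne
        have hx₀' := Finset.mem_inter.1 hx₀
        by_cases hNC : N ⊆ C
        · have := hJ.near N hNC (fun x hx y hy => near_erase hC hconn h2 (hNC hx) (hNC hy)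
            (hnear x hx y hy))
          rw [Finset.inter_eq_left.2 hNC]
          omega
        · exfalso
          obtain ⟨x₁, hx₁, hx₁C⟩ := Finset.not_subset.1 hNC
          have hnz : Near G (insert z C) (insert z (W ∩ C)) x₀ z :=
            near_part_side hCs hconn hx₀'.2 (hN hx₁) hx₁C (hnear x₀ hx₀'.1 x₁ hx₁)
          exact hm.2 l hl (no_help hC.znC Finset.inter_subset_right hC.conn (hCs.conn_ins hconn)
            hKZ.cw hx₀'.2 hnz hcov)
      · rw [Finset.not_nonempty_iff_eq_empty] at hne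
        rw [hne]
        have := hJ.near ∅ (by simp) (by simp)
        simp only [Finset.card_empty] at this ⊢
        omega
    · intro M hM hMne
      obtain ⟨v, hv, hp⟩ := hJ.p1 M hM hMne
      refine ⟨v, hv, ?_⟩
      intro x hx hxv
      rcases Finset.mem_insert.1 hx with hx | hx
      · obtain ⟨y, hy, hyv, hzy⟩ := h2 v
        have := pth_snoc (hp y hy hyv) hC.znC hzy.symm
        rw [hx]
        exact pth_mono this (Finset.Subset.refl _) (by omega)
      · exact pth_mono (hp x hx hxv) (Finset.subset_insert _ _) (by omega)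
    · intro M hM M' hM' hne1 hne2 hno
      obtain ⟨v, hv, v', hv', hvv, hp⟩ := hJ.p2 M hM M' hM' hne1 hne2 hno
      exact ⟨v, hv, v', hv', hvv, pth_mono hp (Finset.subset_insert _ _) (by omega)⟩
    · obtain ⟨D, hD, hD2, hp⟩ := hJ.co
      exact ⟨D, hD.trans (Finset.subset_insert _ _), hD2, fun x hx x' hx' hxx =>
        pth_mono (hp x hx x' hx' hxx) (Finset.Subset.refl _) (by omega)⟩
  · push Not at hh
    have hmZ : MinCov G (insert z C) (insert z (W ∩ C)) m := ⟨cov_ins hm.1, hh⟩
    have hcZ : (insert z C).card = C.card + 1 := Finset.card_insert_of_notMem hC.znC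
    have hcS : 1 ≤ (insert z (W ∩ C)).card := Finset.card_pos.2 ⟨z, Finset.mem_insert_self _ _⟩
    obtain ⟨J, hJ⟩ := ih (insert z C) (insert z (W ∩ C)) b' m (by omega) hKZ hmZ
    have hJC := Pkg.subX hJ
    have hz := Pkg.zmax hCs hJ
    refine ⟨J, ⟨hJC, fun v hv => hCs.good_of hconn (hJ.good v hv) (hJC hv), hJ.ind, hJ.card,
      ?_, ?_, ?_⟩, ?_⟩
    · intro N hN hnear
      by_cases hNC : N ⊆ insert z C
      · have h1 := hz N hNC (fun x hx y hy => near_in_side hCs hconn (hNC hx) (hNC hy)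
          (hnear x hx y hy))
        have h2 := Finset.card_le_card (Finset.inter_subset_left (s₁ := N) (s₂ := C))
        omega
      · have := pieceN hconn hCs hz hN hnear (Finset.not_subset.1 hNC)
        omega
    · intro M hM hMne
      obtain ⟨v, hv, hp⟩ := hJ.p1 M hM hMne
      exact ⟨v, hv, fun x hx hxv => pth_mono (hp x hx hxv) (Finset.Subset.refl _) (by omega)⟩
    · intro M hM M' hM' hne1 hne2 hno
      obtain ⟨v, hv, v', hv', hvv, hp⟩ := hJ.p2 M hM M' hM' hne1 hne2 hno
      exact ⟨v, hv, v', hv', hvv, pth_mono hp (Finset.Subset.refl _) (by omega)⟩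
    · obtain ⟨D, hD, hD2, hp⟩ := hJ.co
      exact ⟨D, hD, hD2, fun x hx x' hx' hxx =>
        pth_mono (hp x hx x' hx' hxx) (Finset.Subset.refl _) (by omega)⟩

/-- splitting a set of members -/
theorem split_mem {X Y J J' M : Finset V} (hXY : Disjoint X Y) (hJ : J ⊆ X) (hJ' : J' ⊆ Y)
    (hM : M ⊆ J ∪ J') : M ∩ X ⊆ J ∧ M ∩ Y ⊆ J' ∧ (M ∩ X).card + (M ∩ Y).card = M.card := by
  have h1 : M ∩ X ⊆ J := by
    intro v hv
    rw [Finset.mem_inter] at hv
    rcases Finset.mem_union.1 (hM hv.1) with h | h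
    · exact h
    · exact absurd (hJ' h) (Finset.disjoint_left.1 hXY hv.2)
  have h2 : M ∩ Y ⊆ J' := by
    intro v hv
    rw [Finset.mem_inter] at hv
    rcases Finset.mem_union.1 (hM hv.1) with h | h
    · exact absurd hv.2 (Finset.disjoint_left.1 hXY (hJ h))
    · exact h
  refine ⟨h1, h2, ?_⟩
  rw [← Finset.card_union_of_disjoint, ← Finset.inter_union_distrib_left]
  · congr 1
    apply Finset.inter_eq_left.2
    intro v hv
    rcases Finset.mem_union.1 (hM hv) with h | h
    · exact Finset.mem_union_left _ (hJ h)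
    · exact Finset.mem_union_right _ (hJ' h)
  · exact Finset.disjoint_of_subset_left Finset.inter_subset_right
      (Finset.disjoint_of_subset_right Finset.inter_subset_right hXY)

/-- paths to the other side -/
theorem ext_path {G : SimpleGraph V} {U X Y : Finset V} {z : V} {v : V} {n : ℕ}
    (hconn : Conn1 G U) (hX : Side G U z X) (hY : Side G U z Y) (hXY : Disjoint X Y)
    (hv : v ∈ X) (hp : ∀ x ∈ insert z X, x ≠ v → Pth G (insert z X) v x n) {T : Finset V}
    (hXT : insert z X ⊆ T) (hYT : insert z Y ⊆ T) :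
    ∀ x, x = z ∨ x ∈ X ∨ x ∈ Y → x ≠ v → Pth G T v x n := by
  intro x hx hxv
  have hvz : z ≠ v := fun he => hX.znC (he ▸ hv)
  by_cases hxX : x ∈ insert z X
  · exact pth_mono (hp x hxX hxv) hXT le_rfl
  · have hxY : x ∈ Y := by
      rcases hx with h | h | h
      · exact absurd (h ▸ Finset.mem_insert_self _ _) hxX
      · exact absurd (Finset.mem_insert_of_mem h) hxX
      · exact h
    have hzx : z ≠ x := fun he => hY.znC (he ▸ hxY)
    have h1 := hp z (Finset.mem_insert_self _ _) hvz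
    have h2 := pth_two (hY.conn_ins hconn) (Finset.mem_insert_self z Y)
      (Finset.mem_insert_of_mem hxY) hzx
    exact pth_mono (pth_glue h1 h2 hXY hX.znC hY.znC hXT hYT) (Finset.Subset.refl _) (by omega)

/-- two disjoint sides together -/
theorem SR.union {G : SimpleGraph V} [DecidableRel G.Adj] {U W X Y J J' : Finset V} {z : V}
    {β p q : ℕ} (hconn : Conn1 G U) (hX : Side G U z X) (hY : Side G U z Y)
    (hXY : Disjoint X Y) (hno : ∀ a ∈ X, ∀ c ∈ Y, ¬ G.Adj a c)
    (h : SR G U W X z (β + q) p J) (h' : SR G U W Y z (β + p) q J') :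
    SR G U W (X ∪ Y) z β (p + q) (J ∪ J') := by
  have hJJ : Disjoint J J' := Finset.disjoint_of_subset_left h.sub
    (Finset.disjoint_of_subset_right h'.sub hXY)
  have hXT : insert z X ⊆ insert z (X ∪ Y) :=
    Finset.insert_subset_insert _ Finset.subset_union_left
  have hYT : insert z Y ⊆ insert z (X ∪ Y) :=
    Finset.insert_subset_insert _ Finset.subset_union_right
  have hmem : ∀ x ∈ insert z (X ∪ Y), x = z ∨ x ∈ X ∨ x ∈ Y := by
    intro x hx
    rw [Finset.mem_insert, Finset.mem_union] at hx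
    exact hx
  refine ⟨Finset.union_subset_union h.sub h'.sub, ?_, indep_union h.ind h'.ind h.sub h'.sub hno,
    ?_, ?_, ?_, ?_⟩
  · intro v hv
    rcases Finset.mem_union.1 hv with hv | hv
    · exact h.good v hv
    · exact h'.good v hv
  · rw [Finset.card_union_of_disjoint hJJ, h.card, h'.card]
  · intro N hN hnear
    rw [Finset.sum_union hJJ, Finset.card_union_of_disjoint hXY]
    have e1 := h.near N hN hnear
    have e2 := h'.near N hN hnear
    have e3 : (N ∩ (X ∪ Y)).card ≤ (N ∩ X).card + (N ∩ Y).card := by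
      rw [Finset.inter_union_distrib_left]
      exact Finset.card_union_le _ _
    omega
  · intro M hM hMne
    obtain ⟨s1, s2, s3⟩ := split_mem hXY h.sub h'.sub hM
    have c1 := Finset.card_le_card s1
    have c2 := Finset.card_le_card s2
    rw [h.card] at c1
    rw [h'.card] at c2
    by_cases hne : (M ∩ X).Nonempty
    · obtain ⟨v, hv, hp⟩ := h.p1 _ s1 hne
      refine ⟨v, (Finset.mem_inter.1 hv).1, fun x hx hxv => ?_⟩
      exact pth_mono (ext_path hconn hX hY hXY (Finset.mem_inter.1 hv).2 hp hXT hYT x (hmem x hx)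
        hxv) (Finset.Subset.refl _) (by omega)
    · have hne' : (M ∩ Y).Nonempty := by
        rw [← Finset.card_pos] at hMne hne ⊢
        omega
      obtain ⟨v, hv, hp⟩ := h'.p1 _ s2 hne'
      refine ⟨v, (Finset.mem_inter.1 hv).1, fun x hx hxv => ?_⟩
      exact pth_mono (ext_path hconn hY hX hXY.symm (Finset.mem_inter.1 hv).2 hp hYT hXT x
        (by rcases hmem x hx with h | h | h <;> tauto) hxv) (Finset.Subset.refl _) (by omega)
  · intro M hM M' hM' hMne hMne' hcond
    obtain ⟨s1, s2, s3⟩ := split_mem hXY h.sub h'.sub hM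
    obtain ⟨t1, t2, t3⟩ := split_mem hXY h.sub h'.sub hM'
    have c1 := Finset.card_le_card s1
    have c2 := Finset.card_le_card s2
    have d1 := Finset.card_le_card t1
    have d2 := Finset.card_le_card t2
    rw [h.card] at c1 d1
    rw [h'.card] at c2 d2
    by_cases hA : (M ∩ X).Nonempty ∧ (M' ∩ Y).Nonempty
    · obtain ⟨v, hv, hp⟩ := h.p1 _ s1 hA.1
      obtain ⟨v', hv', hp'⟩ := h'.p1 _ t2 hA.2
      have hvX := (Finset.mem_inter.1 hv).2
      have hvY := (Finset.mem_inter.1 hv').2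
      have h1 := hp z (Finset.mem_insert_self _ _) (fun he => hX.znC (he ▸ hvX))
      have h2 := hp' z (Finset.mem_insert_self _ _) (fun he => hY.znC (he ▸ hvY))
      refine ⟨v, (Finset.mem_inter.1 hv).1, v', (Finset.mem_inter.1 hv').1, ?_, ?_⟩
      · rintro rfl
        exact Finset.disjoint_left.1 hXY hvX hvY
      · exact pth_mono (pth_glue h1 (pth_rev h2) hXY hX.znC hY.znC hXT hYT)
          (Finset.Subset.refl _) (by omega)
    by_cases hB : (M ∩ Y).Nonempty ∧ (M' ∩ X).Nonempty
    · obtain ⟨v, hv, hp⟩ := h'.p1 _ s2 hB.1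
      obtain ⟨v', hv', hp'⟩ := h.p1 _ t1 hB.2
      have hvY := (Finset.mem_inter.1 hv).2
      have hvX := (Finset.mem_inter.1 hv').2
      have h1 := hp z (Finset.mem_insert_self _ _) (fun he => hY.znC (he ▸ hvY))
      have h2 := hp' z (Finset.mem_insert_self _ _) (fun he => hX.znC (he ▸ hvX))
      refine ⟨v, (Finset.mem_inter.1 hv).1, v', (Finset.mem_inter.1 hv').1, ?_, ?_⟩
      · rintro rfl
        exact Finset.disjoint_left.1 hXY hvX hvY
      · exact pth_mono (pth_glue h1 (pth_rev h2) hXY.symm hY.znC hX.znC hYT hXT)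
          (Finset.Subset.refl _) (by omega)
    rw [← Finset.card_pos] at hMne hMne'
    rw [← Finset.card_pos, ← Finset.card_pos] at hA hB
    by_cases h3 : 0 < (M ∩ X).card
    · have e1 : (M' ∩ Y).card = 0 := by
        by_contra hcon
        exact hA ⟨h3, by omega⟩
      have e2 : (M ∩ Y).card = 0 := by
        by_contra hcon
        exact hB ⟨by omega, by omega⟩
      have f1 : M ∩ X = M := Finset.eq_of_subset_of_card_le Finset.inter_subset_left (by omega)
      have f2 : M' ∩ X = M' := Finset.eq_of_subset_of_card_le Finset.inter_subset_left (by omega)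
      rw [f1] at s1
      rw [f2] at t1
      obtain ⟨v, hv, v', hv', hvv, hp⟩ := h.p2 M s1 M' t1 (Finset.card_pos.1 hMne)
        (Finset.card_pos.1 hMne') hcond
      exact ⟨v, hv, v', hv', hvv, pth_mono hp hXT (by omega)⟩
    · have e0 : 0 < (M ∩ Y).card := by omega
      have e1 : (M' ∩ X).card = 0 := by
        by_contra hcon
        exact hB ⟨e0, by omega⟩
      have f1 : M ∩ Y = M := Finset.eq_of_subset_of_card_le Finset.inter_subset_left (by omega)
      have f2 : M' ∩ Y = M' := Finset.eq_of_subset_of_card_le Finset.inter_subset_left (by omega)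
      rw [f1] at s2
      rw [f2] at t2
      obtain ⟨v, hv, v', hv', hvv, hp⟩ := h'.p2 M s2 M' t2 (Finset.card_pos.1 hMne)
        (Finset.card_pos.1 hMne') hcond
      exact ⟨v, hv, v', hv', hvv, pth_mono hp hYT (by omega)⟩

/-- a union of components of `U - z` -/
theorem sideP {G : SimpleGraph V} [DecidableRel G.Adj] {n : ℕ} {U W : Finset V} {z u₀ : V}
    (ih : IHP G n) (hW : W ⊆ U) (hCW : CW G U W) (hconn : Conn1 G U) (hu : u₀ ∈ U) :
    ∀ (r : ℕ) (B : Finset V), B.card ≤ r → Side G U z B → B.card + 1 < n → u₀ ∉ insert z B →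
    ∃ m, CovW G B (W ∩ B) m ∧ (∃ J₀ ⊆ B \ W, G.IsIndepSet (J₀ : Set V) ∧ J₀.card = m) ∧
      ((B \ W).Nonempty → 1 ≤ m) ∧
      ∀ β, Sb G U W B β → 1 ≤ β + (W \ B).card → ∃ J, SR G U W B z β m J := by
  intro r
  induction r with
  | zero =>
    intro B hB0 hBs hBn hu'
    have hB : B = ∅ := Finset.card_eq_zero.1 (by omega)
    subst hB
    exact ⟨0, cov_zero (by simp), ⟨∅, by simp, by simp [SimpleGraph.IsIndepSet], rfl⟩,
      by simp, fun β _ _ => ⟨∅, SR.empty⟩⟩
  | succ r ihr =>
    intro B hBr hBs hBn hu'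
    rcases B.eq_empty_or_nonempty with hB | ⟨x, hx⟩
    · subst hB
      exact ⟨0, cov_zero (by simp), ⟨∅, by simp, by simp [SimpleGraph.IsIndepSet], rfl⟩,
        by simp, fun β _ _ => ⟨∅, SR.empty⟩⟩
    obtain ⟨C, hxC, hC⟩ := exists_part (G := G) hBs.zH (hBs.sub hx)
    have hCB : C ⊆ B := by
      intro y hy
      by_contra hyB
      obtain ⟨P, p1, p2, p3⟩ := seg_of_reach (hC.conn x hxC y hy) hxC
      have h := hBs.cross p1 (fun w hw => hC.subH (p3 w hw)) (Finset.mem_insert_of_mem hx)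
        (fun h => by
          rcases Finset.mem_insert.1 h with h | h
          · exact hC.znC (h ▸ hy)
          · exact hyB h)
      exact hC.znC (p3 z h)
    have hD : Side G U z (B \ C) := by
      refine ⟨hBs.zH, Finset.sdiff_subset.trans hBs.sub, ?_⟩
      intro w hw y hy hwy
      rw [Finset.mem_sdiff] at hw
      rcases hBs.cl w hw.1 y hy hwy with h | h
      · left
        refine Finset.mem_sdiff.2 ⟨h, fun hyC => ?_⟩
        rcases hC.cl y hyC w (hBs.subH hw.1) hwy.symm with h1 | h1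
        · exact hw.2 h1
        · exact hBs.znC (h1 ▸ hw.1)
      · exact Or.inr h
    have hcB : C.card + (B \ C).card = B.card := by
      rw [Finset.card_sdiff_of_subset hCB]
      have := Finset.card_le_card hCB
      omega
    have hCp : 1 ≤ C.card := Finset.card_pos.2 ⟨x, hxC⟩
    have huC : u₀ ∉ insert z C := fun h => hu' (Finset.insert_subset_insert _ hCB h)
    have huD : u₀ ∉ insert z (B \ C) := fun h =>
      hu' (Finset.insert_subset_insert _ Finset.sdiff_subset h)
    have hno : ∀ a ∈ C, ∀ b ∈ B \ C, ¬ G.Adj a b := by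
      intro a ha b hb hab
      rcases hC.cl a ha b (hD.subH hb) hab with h1 | h1
      · exact (Finset.mem_sdiff.1 hb).2 h1
      · exact hD.znC (h1 ▸ hb)
    have hdis : Disjoint C (B \ C) := Finset.disjoint_sdiff
    have hun : C ∪ (B \ C) = B := Finset.union_sdiff_of_subset hCB
    obtain ⟨c, hc, hc'⟩ := exists_min_cov Finset.inter_subset_right
      (hC.side.cw0 hW hCW hu huC)
    have hcm : MinCov G C (W ∩ C) c := ⟨hc, hc'⟩
    obtain ⟨d, d1, ⟨K, k1, k2, k3⟩, d3, d4⟩ := ihr (B \ C) (by omega) hD (by omega) huD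
    -- an independent set of size `c` in `C`
    obtain ⟨L, l1, l2, l3⟩ : ∃ L ⊆ C \ W, G.IsIndepSet (L : Set V) ∧ L.card = c := by
      rcases Nat.eq_zero_or_pos c with h0 | h0
      · exact ⟨∅, by simp, by simp [SimpleGraph.IsIndepSet], by simp [h0]⟩
      · obtain ⟨I, hI⟩ := ih C (W ∩ C) 0 c (by omega)
          (Kb.zero Finset.inter_subset_right hC.conn (by
            obtain ⟨y, hy⟩ := ne_of_pos hcm h0
            rw [Finset.mem_sdiff] at hy
            exact ⟨y, Finset.mem_sdiff.2 ⟨hy.1, fun h => hy.2 (Finset.mem_inter.1 h).1⟩⟩)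
            (hC.side.cw0 hW hCW hu huC)) hcm
        refine ⟨I, fun v hv => ?_, hI.ind, hI.card⟩
        have hg := hI.good v hv
        exact Finset.mem_sdiff.2 ⟨hg.mem, fun h => hg.nS (Finset.mem_inter.2 ⟨h, hg.mem⟩)⟩
    have hLB : L ⊆ B \ W := fun v hv =>
      Finset.mem_sdiff.2 ⟨hCB (Finset.mem_sdiff.1 (l1 hv)).1, (Finset.mem_sdiff.1 (l1 hv)).2⟩
    have hKB : K ⊆ B \ W := fun v hv => Finset.mem_sdiff.2
      ⟨(Finset.mem_sdiff.1 (Finset.mem_sdiff.1 (k1 hv)).1).1, (Finset.mem_sdiff.1 (k1 hv)).2⟩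
    have hLC : L ⊆ C := fun v hv => (Finset.mem_sdiff.1 (l1 hv)).1
    have hKD : K ⊆ B \ C := fun v hv => (Finset.mem_sdiff.1 (k1 hv)).1
    refine ⟨c + d, ?_, ⟨L ∪ K, Finset.union_subset hLB hKB,
      indep_union l2 k2 hLC hKD hno, ?_⟩, ?_, ?_⟩
    · have := CovW.union hdis hc d1
      rw [hun, ← Finset.inter_union_distrib_left, hun] at this
      exact this
    · rw [Finset.card_union_of_disjoint, l3, k3]
      exact Finset.disjoint_of_subset_left hLC (Finset.disjoint_of_subset_right hKD hdis)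
    · rintro ⟨y, hy⟩
      rw [Finset.mem_sdiff] at hy
      by_cases hyC : y ∈ C
      · have := pos_of_ne hc ⟨y, Finset.mem_sdiff.2 ⟨hyC, hy.2⟩⟩
        omega
      · have := d3 ⟨y, Finset.mem_sdiff.2 ⟨Finset.mem_sdiff.2 ⟨hy.1, hyC⟩, hy.2⟩⟩
        omega
    · intro β hβ hβ1
      have hw1 : (W \ B).card ≤ (W \ C).card :=
        Finset.card_le_card (Finset.sdiff_subset_sdiff (Finset.Subset.refl _) hCB)
      have hw2 : (W \ B).card ≤ (W \ (B \ C)).card :=
        Finset.card_le_card (Finset.sdiff_subset_sdiff (Finset.Subset.refl _)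
          Finset.sdiff_subset)
      have hβC : Sb G U W C (β + d) := by
        have := sb_of hβ hCB hKB (Finset.disjoint_of_subset_right hKD hdis) k2
          (fun a ha e he => hno a ha e (hKD he))
        rwa [k3] at this
      have hβD : Sb G U W (B \ C) (β + c) := by
        have := sb_of hβ Finset.sdiff_subset hLB (Finset.disjoint_of_subset_right hLC hdis.symm)
          l2 (fun a ha e he hadj => hno e (hLC he) a ha hadj.symm)
        rwa [l3] at this
      obtain ⟨J', hJ'⟩ := d4 (β + c) hβD (by omega)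
      obtain ⟨J, hJ⟩ : ∃ J, SR G U W C z (β + d) c J := by
        rcases Nat.eq_zero_or_pos c with h0 | h0
        · subst h0
          exact ⟨∅, SR.empty⟩
        · obtain ⟨J, hJ, -⟩ := compP ih hW hCW hconn hC (by omega) hu huC hβC (by omega) hcm h0
          exact ⟨J, hJ⟩
      have := SR.union hconn hC.side hD hdis hno hJ hJ'
      rw [hun] at this
      exact ⟨_, this⟩

end Pool.Agent.H92P
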